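import Pool.Agent.Work.MP_02f065_gt.Av.Main

/-!
MP_02f065_gt: metrics which lie pointwise in a one-parameter family of SO(P) x SO(Q)-invariant
metrics.
-/

open MeasureTheory Set Filter Topology

noncomputable section

namespace Pool.Agent.Work.MP_02f065_gt.RPn

attribute [local instance] HaarData.ms HaarData.prob

variable {P Q : ℕ} (HP : HaarData P) (HQ : HaarData Q)

/-- The conditions of `IsMetric`, except for the continuity. -/
structure IsForm (g : Field (Ix P Q)) : Prop where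
  add : ∀ x v v' w : E (Ix P Q), g x (v + v') w = g x v w + g x v' w
  smul : ∀ (x v w : E (Ix P Q)) (r : ℝ), g x (r • v) w = r * g x v w
  symm : ∀ x v w : E (Ix P Q), g x v w = g x w v
  pos : ∀ x v : E (Ix P Q), ‖x‖ = 1 → inner ℝ x v = 0 → v ≠ 0 → 0 < g x v v
  even : ∀ x v w : E (Ix P Q), ‖x‖ = 1 → inner ℝ x v = 0 → inner ℝ x w = 0 →
    g (-x) v w = g x v w

/-- A family `H t`, `t > 0`, of SO(P) x SO(Q)-invariant fields of inner products on the tangent
spaces, continuous at all `(t, x)` with `x` outside the invariant set `Z` or `t = 1`, such that,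
for `x` outside `Z`, the norm of every tangent vector is a concave function of `t` and the volume
density is a convex function of `t`. -/
structure IsFamily (H : ℝ → Field (Ix P Q)) (Z : Set (E (Ix P Q))) : Prop where
  zinv : ∀ A ∈ SO P, ∀ B ∈ SO Q, ∀ x ∈ Z, blk A B x ∈ Z
  form : ∀ t, 0 < t → IsForm (H t)
  inv : ∀ t, 0 < t → IsInv (H t)
  cont : ∀ (v w : E (Ix P Q)) (t : ℝ) (x : E (Ix P Q)), 0 < t → ‖x‖ = 1 → (x ∉ Z ∨ t = 1) →
    ContinuousWithinAt (fun z : ℝ × E (Ix P Q) => H z.1 z.2 v w)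
      (Ioi 0 ×ˢ Metric.sphere (0 : E (Ix P Q)) 1) (t, x)
  concave : ∀ x v, ‖x‖ = 1 → inner ℝ x v = 0 → x ∉ Z →
    ConcaveOn ℝ (Ioi 0) (fun t => Real.sqrt (H t x v v))
  convex : ∀ x, ‖x‖ = 1 → x ∉ Z → ConvexOn ℝ (Ioi 0) (fun t => volDensity (H t) x)

/-- `g` is obtained by choosing a member of a family at every point, by a positive function. -/
def InFamily (g : Field (Ix P Q)) : Prop :=
  ∃ (H : ℝ → Field (Ix P Q)) (Z : Set (E (Ix P Q))) (φ : E (Ix P Q) → ℝ), IsFamily H Z ∧
    ContinuousOn φ (Metric.sphere (0 : E (Ix P Q)) 1) ∧ (∀ x, ‖x‖ = 1 → 0 < φ x) ∧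
    (∀ x, ‖x‖ = 1 → φ (-x) = φ x) ∧ (∀ x ∈ Z, ‖x‖ = 1 → φ x = 1) ∧
    ∀ x v w, ‖x‖ = 1 → inner ℝ x v = 0 → inner ℝ x w = 0 → g x v w = H (φ x) x v w

theorem form_gsum {g : Field (Ix P Q)} (hg : IsForm g) (x w : E (Ix P Q)) (s : Finset (Ix P Q))
    (a : Ix P Q → ℝ) (v : Ix P Q → E (Ix P Q)) :
    g x (∑ j ∈ s, a j • v j) w = ∑ j ∈ s, a j * g x (v j) w := by
  classical
  induction s using Finset.induction_on with
  | empty =>
    have h := hg.smul x 0 w 0
    simpa using h
  | insert j s hj ih => rw [Finset.sum_insert hj, Finset.sum_insert hj, hg.add, hg.smul, ih]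

/-- Invariance of the volume density (no continuity needed). -/
theorem form_BD2 {g : Field (Ix P Q)} (hg : IsForm g) (hinv : IsInv g)
    {A : Matrix (Fin P) (Fin P) ℝ} (hA : A ∈ SO P) {B : Matrix (Fin Q) (Fin Q) ℝ} (hB : B ∈ SO Q)
    {x : E (Ix P Q)} (hx : ‖x‖ = 1) : volDensity g (blk A B x) = volDensity g x := by
  have hR : claimR := itemR
  obtain ⟨hA', hAA⟩ := iBD2_inv hA
  obtain ⟨hB', hBB⟩ := iBD2_inv hB
  have hadd : ∀ y z, blk A B (y + z) = blk A B y + blk A B z := fun y z => (hR P Q A hA B hB y z 0).1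
  have hsmul : ∀ (t : ℝ) y, blk A B (t • y) = t • blk A B y := fun t y =>
    (hR P Q A hA B hB y y t).2.1
  have hin : ∀ y z : E (Ix P Q), inner ℝ (blk A B y) (blk A B z) = inner ℝ y z :=
    fun y z => (hR P Q A hA B hB y z 0).2.2.2.1
  have hnx : ‖blk A B x‖ = 1 := by rw [(hR P Q A hA B hB x x 0).2.2.2.2.1, hx]
  -- the inverse images of the basis vectors
  set u : Ix P Q → E (Ix P Q) := fun i => blk A.transpose B.transpose (ei i) with hu
  have hru : ∀ i, blk A B (u i) = ei i := by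
    intro i
    rw [hu, (hR P Q A hA B hB (ei i) 0 0).2.2.2.2.2.1 _ hA' _ hB', hAA, hBB]
    exact (hR P Q A hA B hB (ei i) 0 0).2.2.2.2.2.2
  have hsub : ∀ y z : E (Ix P Q), blk A B (y - z) = blk A B y - blk A B z := by
    intro y z
    have h1 := hadd (y - z) z
    rw [sub_add_cancel] at h1
    rw [h1]
    abel
  have htang : ∀ i, tang (blk A B x) (ei i) = blk A B (tang x (u i)) := by
    intro i
    unfold tang
    rw [← hru i, hin, hsub, hsmul]
  have hcoord : ∀ i, (blk A B x) i = inner ℝ x (u i) := by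
    intro i
    rw [← hin, hru i]
    unfold ei
    rw [EuclideanSpace.inner_single_right]
    simp
  set R : Matrix (Ix P Q) (Ix P Q) ℝ := Matrix.of fun i k => u i k with hRdef
  set M : Matrix (Ix P Q) (Ix P Q) ℝ := Matrix.of (gram g x) with hM
  have hRR : R * R.transpose = 1 := by
    ext i j
    have h1 : inner ℝ (u i) (u j) = if i = j then (1 : ℝ) else 0 := by
      rw [← hin, hru, hru]
      unfold ei
      simp [EuclideanSpace.inner_single_left]
    rw [Matrix.mul_apply, Matrix.one_apply, ← h1, iBD2_inner]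
    rfl
  have hexp : ∀ v w : E (Ix P Q), g x (tang x v) (tang x w) + inner ℝ x v * inner ℝ x w =
      ∑ k, ∑ l, v k * M k l * w l := by
    intro v w
    have e1 : g x (tang x v) (tang x w) = ∑ k, ∑ l, v k * (w l * g x (tang x (ei k)) (tang x (ei l))) := by
      rw [iBD2_tang_sum x v, form_gsum hg]
      refine Finset.sum_congr rfl fun k _ => ?_
      rw [← Finset.mul_sum]
      congr 1
      rw [hg.symm, iBD2_tang_sum x w, form_gsum hg]
      refine Finset.sum_congr rfl fun l _ => ?_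
      rw [hg.symm]
    rw [e1, iBD2_inner, iBD2_inner, Finset.sum_mul_sum, ← Finset.sum_add_distrib]
    refine Finset.sum_congr rfl fun k _ => ?_
    rw [← Finset.sum_add_distrib]
    refine Finset.sum_congr rfl fun l _ => ?_
    simp only [hM, Matrix.of_apply, gram]
    ring
  have hprod : (Matrix.of (gram g (blk A B x))) = R * M * R.transpose := by
    ext i j
    rw [Matrix.of_apply]
    unfold gram
    rw [htang, htang, hinv A hA B hB x _ _ hx (iBD2_inner_tang hx _) (iBD2_inner_tang hx _),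
      hcoord, hcoord, hexp]
    rw [Matrix.mul_apply, Finset.sum_comm]
    refine Finset.sum_congr rfl fun l _ => ?_
    rw [Matrix.mul_apply, Finset.sum_mul]
    rfl
  have hdet : R.det * R.det = 1 := by
    have h1 := congrArg Matrix.det hRR
    rw [Matrix.det_mul, Matrix.det_transpose, Matrix.det_one] at h1
    exact h1
  unfold volDensity
  rw [hprod, Matrix.det_mul, Matrix.det_mul, Matrix.det_transpose,
    show R.det * M.det * R.det = (R.det * R.det) * M.det by ring, hdet, one_mul]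

section family

variable {H : ℝ → Field (Ix P Q)} {Z : Set (E (Ix P Q))} {g : Field (Ix P Q)}
  {φ : E (Ix P Q) → ℝ}

/-- The field `x -> H (φ x) x`. -/
def sel (H : ℝ → Field (Ix P Q)) (φ : E (Ix P Q) → ℝ) : Field (Ix P Q) :=
  fun x v w => H (max (φ x) 0 + (if 0 < φ x then 0 else 1)) x v w

theorem sel_eq {x : E (Ix P Q)} (h : 0 < φ x) (v w : E (Ix P Q)) :
    sel H φ x v w = H (φ x) x v w := by
  unfold sel
  rw [if_pos h, add_zero, max_eq_left h.le]

theorem sel_par (x : E (Ix P Q)) : 0 < max (φ x) 0 + (if 0 < φ x then (0 : ℝ) else 1) := by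
  by_cases h : 0 < φ x
  · rw [if_pos h, add_zero, max_eq_left h.le]; exact h
  · rw [if_neg h]
    have := le_max_right (φ x) 0
    linarith

theorem sel_metric (hH : IsFamily H Z) (hc : ContinuousOn φ (Metric.sphere (0 : E (Ix P Q)) 1))
    (hp : ∀ x, ‖x‖ = 1 → 0 < φ x) (he : ∀ x, ‖x‖ = 1 → φ (-x) = φ x)
    (hz : ∀ x ∈ Z, ‖x‖ = 1 → φ x = 1) : IsMetric (sel H φ) := by
  refine ⟨?_, ?_, ?_, ?_, ?_, ?_⟩
  · intro x v v' w
    exact (hH.form _ (sel_par x)).add x v v' w
  · intro x v w r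
    exact (hH.form _ (sel_par x)).smul x v w r
  · intro x v w
    exact (hH.form _ (sel_par x)).symm x v w
  · intro v w
    have h1 : ContinuousOn (fun x => H (φ x) x v w) (Metric.sphere (0 : E (Ix P Q)) 1) := by
      intro x0 hx0
      have hx1 : ‖x0‖ = 1 := by simpa using hx0
      have h2 := hH.cont v w (φ x0) x0 (hp x0 hx1) hx1
        (by by_cases hxz : x0 ∈ Z
            · exact Or.inr (hz x0 hxz hx1)
            · exact Or.inl hxz)
      refine h2.comp (f := fun x => (φ x, x)) ((hc x0 hx0).prodMk continuousWithinAt_id) ?_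
      intro x hx
      exact ⟨hp x (by simpa using hx), hx⟩
    refine h1.congr fun x hx => ?_
    exact sel_eq (hp x (by simpa using hx)) v w
  · intro x v hx hv hv0
    rw [sel_eq (hp x hx)]
    exact (hH.form _ (hp x hx)).pos x v hx hv hv0
  · intro x v w hx hv hw
    have hnx : ‖-x‖ = 1 := by rw [norm_neg, hx]
    rw [sel_eq (hp x hx), sel_eq (hp _ hnx), he x hx]
    exact (hH.form _ (hp x hx)).even x v w hx hv hw

theorem sel_inv (hH : IsFamily H Z) (hp : ∀ x, ‖x‖ = 1 → 0 < φ x)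
    (hφ : ∀ A ∈ SO P, ∀ B ∈ SO Q, ∀ x, ‖x‖ = 1 → φ (blk A B x) = φ x) :
    IsInv (sel H φ) := by
  intro A hA B hB x v w hx hv hw
  have hn : ‖blk A B x‖ = 1 := by
    rw [(itemR P Q A hA B hB x x 0).2.2.2.2.1, hx]
  rw [sel_eq (hp _ hn), sel_eq (hp x hx), hφ A hA B hB x hx]
  exact hH.inv _ (hp x hx) A hA B hB x v w hx hv hw

theorem range_cpt (hc : ContinuousOn φ (Metric.sphere (0 : E (Ix P Q)) 1))
    (hp : ∀ x, ‖x‖ = 1 → 0 < φ x) :
    ∃ a b : ℝ, 0 < a ∧ ∀ x, ‖x‖ = 1 → φ x ∈ Icc a b := by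
  obtain ⟨a, ha, h1⟩ := iBA_lower φ hc hp
  obtain ⟨b, h2⟩ := iBA_bdd φ hc
  exact ⟨a, b, ha, fun x hx => ⟨h1 x hx, (le_abs_self _).trans (h2 x hx)⟩⟩

theorem sel_dominates (hH : IsFamily H Z)
    (hc : ContinuousOn φ (Metric.sphere (0 : E (Ix P Q)) 1)) (hp : ∀ x, ‖x‖ = 1 → 0 < φ x)
    (hz : ∀ x ∈ Z, ‖x‖ = 1 → φ x = 1) (hap : ∀ x, ‖x‖ = 1 → 0 < avg HP HQ φ x)
    (hg : ∀ x v w, ‖x‖ = 1 → inner ℝ x v = 0 → inner ℝ x w = 0 → g x v w = H (φ x) x v w) :
    Dominates HP HQ g (sel H (avg HP HQ φ)) := by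
  have hR : claimR := itemR
  intro x v hx hv
  obtain ⟨a, b, ha, hab⟩ := range_cpt hc hp
  rw [sel_eq (hap x hx)]
  have e1 : ∀ q : HP.Ω × HQ.Ω, g (blk (HP.m q.1) (HQ.m q.2) x) (blk (HP.m q.1) (HQ.m q.2) v)
      (blk (HP.m q.1) (HQ.m q.2) v) = H (φ (blk (HP.m q.1) (HQ.m q.2) x)) x v v := by
    intro q
    have hn := iBL_norm HP HQ hR q x hx
    have hin : inner ℝ (blk (HP.m q.1) (HQ.m q.2) x) (blk (HP.m q.1) (HQ.m q.2) v) = 0 := by
      rw [(hR P Q _ (HP.mem q.1) _ (HQ.mem q.2) x v 0).2.2.2.1, hv]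
    rw [hg _ _ _ hn hin hin]
    exact hH.inv _ (hp _ hn) _ (HP.mem q.1) _ (HQ.mem q.2) x v v hx hv hv
  simp only [e1]
  rw [iBL_avg HP HQ hR hc x hx]
  by_cases hxz : x ∈ Z
  · have e4 : ∀ q : HP.Ω × HQ.Ω, φ (blk (HP.m q.1) (HQ.m q.2) x) = 1 := fun q =>
      hz _ (hH.zinv _ (HP.mem q.1) _ (HQ.mem q.2) x hxz) (iBL_norm HP HQ hR q x hx)
    simp [e4]
  have hcx : ContinuousOn (fun t => Real.sqrt (H t x v v)) (Ioi 0) := by
    refine Real.continuous_sqrt.comp_continuousOn ?_
    intro t ht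
    refine (hH.cont v v t x ht hx (Or.inl hxz)).comp (f := fun t => (t, x))
      (continuousWithinAt_id.prodMk continuousWithinAt_const) ?_
    intro t ht
    exact ⟨ht, by simpa using hx⟩
  have hsub : Icc a b ⊆ Ioi (0 : ℝ) := fun t ht => lt_of_lt_of_le ha ht.1
  refine ConcaveOn.le_map_integral (s := Icc a b) (g := fun t : ℝ => Real.sqrt (H t x v v))
    ((hH.concave x v hx hv hxz).subset hsub (convex_Icc a b)) (hcx.mono hsub) isClosed_Icc
    (Eventually.of_forall fun q => hab _ (iBL_norm HP HQ hR q x hx))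
    (iBL_int1 HP HQ hR hc x hx) ?_
  have hF : ContinuousOn (fun y => Real.sqrt (H (φ y) x v v))
      (Metric.sphere (0 : E (Ix P Q)) 1) := by
    refine hcx.comp hc ?_
    intro y hy
    exact hp y (by simpa using hy)
  exact iBL_int1 HP HQ hR hF x hx

theorem sel_vol_le (hP : 1 ≤ P) (hQ : 1 ≤ Q) (hgm : IsMetric g) (hH : IsFamily H Z)
    (hc : ContinuousOn φ (Metric.sphere (0 : E (Ix P Q)) 1)) (hp : ∀ x, ‖x‖ = 1 → 0 < φ x)
    (he : ∀ x, ‖x‖ = 1 → φ (-x) = φ x) (hz : ∀ x ∈ Z, ‖x‖ = 1 → φ x = 1)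
    (haz : ∀ x ∈ Z, ‖x‖ = 1 → avg HP HQ φ x = 1)
    (hg : ∀ x v w, ‖x‖ = 1 → inner ℝ x v = 0 → inner ℝ x w = 0 → g x v w = H (φ x) x v w) :
    vol (sel H (avg HP HQ φ)) ≤ vol g := by
  have hR : claimR := itemR
  obtain ⟨hac, hap, hai, hae⟩ := BA_holds P Q hP hQ HP HQ φ hc hp he
  have c1 := itemBD3 (Ix P Q) g hgm
  have c2 := itemBD3 (Ix P Q) _ (sel_metric hH hac hap hae haz)
  unfold vol
  refine mul_le_mul_of_nonneg_left ?_ (by norm_num)
  refine sphere_avg_le HP HQ hP hQ c1 c2 ?_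
  intro x hx
  obtain ⟨a, b, ha, hab⟩ := range_cpt hc hp
  have hsub : Icc a b ⊆ Ioi (0 : ℝ) := fun t ht => lt_of_lt_of_le ha ht.1
  have e0 : volDensity (sel H (avg HP HQ φ)) x = volDensity (H (avg HP HQ φ x)) x :=
    volDensity_congr hx (fun v w _ _ => sel_eq (hap x hx) v w)
  have e3 : ∀ q : HP.Ω × HQ.Ω, volDensity g (blk (HP.m q.1) (HQ.m q.2) x) =
      volDensity (H (φ (blk (HP.m q.1) (HQ.m q.2) x))) x := by
    intro q
    have hn := iBL_norm HP HQ hR q x hx
    have ht0 := hp _ hn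
    rw [volDensity_congr (g' := H (φ (blk (HP.m q.1) (HQ.m q.2) x))) hn
      (fun v w hv hw => hg _ v w hn hv hw)]
    exact form_BD2 (hH.form _ ht0) (hH.inv _ ht0) (HP.mem q.1) (HQ.mem q.2) hx
  rw [e0]
  simp_rw [e3]
  by_cases hxz : x ∈ Z
  · have e4 : ∀ q : HP.Ω × HQ.Ω, φ (blk (HP.m q.1) (HQ.m q.2) x) = 1 := fun q =>
      hz _ (hH.zinv _ (HP.mem q.1) _ (HQ.mem q.2) x hxz) (iBL_norm HP HQ hR q x hx)
    rw [haz x hxz hx]
    simp [e4]
  have hcv : ContinuousOn (fun t => volDensity (H t) x) (Ioi 0) := by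
    unfold volDensity
    refine Real.continuous_sqrt.comp_continuousOn ?_
    have : ContinuousOn (fun t => Matrix.of (gram (H t) x)) (Ioi 0) := by
      refine continuousOn_pi.mpr fun i => continuousOn_pi.mpr fun j => ?_
      simp only [Matrix.of_apply, gram]
      refine ContinuousOn.add ?_ continuousOn_const
      intro t ht
      refine (hH.cont _ _ t x ht hx (Or.inl hxz)).comp (f := fun t => (t, x))
        (continuousWithinAt_id.prodMk continuousWithinAt_const) ?_
      intro t ht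
      exact ⟨ht, by simpa using hx⟩
    exact (Continuous.matrix_det continuous_id).comp_continuousOn this
  rw [iBV_avg HP HQ hR hc x hx]
  have hF : ContinuousOn (fun y => volDensity (H (φ y)) x)
      (Metric.sphere (0 : E (Ix P Q)) 1) := by
    refine hcv.comp hc ?_
    intro y hy
    exact hp y (by simpa using hy)
  exact ConvexOn.map_integral_le (s := Icc a b) (g := fun t : ℝ => volDensity (H t) x)
    ((hH.convex x hx hxz).subset hsub (convex_Icc a b)) (hcv.mono hsub) isClosed_Icc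
    (Eventually.of_forall fun q => hab _ (iBV_norm HP HQ hR q x hx))
    (iBV_int1 HP HQ hR hc x hx) (iBV_int1 HP HQ hR hF x hx)

theorem fam_avg_one (hH : IsFamily H Z) (hz : ∀ x ∈ Z, ‖x‖ = 1 → φ x = 1)
    (hc : ContinuousOn φ (Metric.sphere (0 : E (Ix P Q)) 1)) :
    ∀ x ∈ Z, ‖x‖ = 1 → avg HP HQ φ x = 1 := by
  intro x hxz hx
  rw [iBV_avg HP HQ itemR hc x hx]
  have e4 : ∀ q : HP.Ω × HQ.Ω, φ (blk (HP.m q.1) (HQ.m q.2) x) = 1 := fun q =>
    hz _ (hH.zinv _ (HP.mem q.1) _ (HQ.mem q.2) x hxz) (iBV_norm HP HQ itemR q x hx)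
  simp [e4]

end family


/-! ### The theorem -/

/-- Metrics conformal to invariant ones lie in a family. -/
theorem conf_inFamily (hP : 1 ≤ P) (hQ : 1 ≤ Q) {g : Field (Ix P Q)} (hg : IsMetric g)
    (hc : ConformallyInv g) : InFamily g := by
  obtain ⟨g₁, u, hg1, ht1, hu, hupos, hgu⟩ := hc
  have hlp : ∀ x, ‖x‖ = 1 → 0 < Real.sqrt (u x) := fun x hx => Real.sqrt_pos.mpr (hupos x hx)
  have hgl : ∀ x v w : E (Ix P Q), ‖x‖ = 1 → inner ℝ x v = 0 → inner ℝ x w = 0 →
      g x v w = (Real.sqrt (u x)) ^ 2 * g₁ x v w := by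
    intro x v w hx hv hw
    rw [Real.sq_sqrt (hupos x hx).le]
    exact hgu x v w hx hv hw
  have hmt : ∀ t : ℝ, 0 < t → IsMetric (fun x v w => t ^ 2 * g₁ x v w) := by
    intro t ht
    refine ⟨?_, ?_, ?_, ?_, ?_, ?_⟩
    · intro x v v' w
      simp only [hg1.add]
      ring
    · intro x v w r
      simp only [hg1.smul]
      ring
    · intro x v w
      simp only [hg1.symm x v w]
    · intro v w
      exact continuousOn_const.mul (hg1.cont v w)
    · intro x v hx hxv hv
      exact mul_pos (pow_pos ht 2) (hg1.pos x v hx hxv hv)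
    · intro x v w hx hxv hxw
      simp only [hg1.even x v w hx hxv hxw]
  refine ⟨fun t x v w => t ^ 2 * g₁ x v w, ∅, fun x => Real.sqrt (u x),
    ⟨by simp, fun t ht => ⟨(hmt t ht).add, (hmt t ht).smul, (hmt t ht).symm, (hmt t ht).pos,
      (hmt t ht).even⟩, ?_, ?_, ?_, ?_⟩,
    hu.sqrt, hlp, fun x hx => lam_even hP hQ hg hg1 hlp hgl x hx, by simp, hgl⟩
  · intro t ht A hA B hB x v w hx hv hw
    simp only [ht1 A hA B hB x v w hx hv hw]
  · intro v w t x ht hx _
    have h1 : ContinuousOn (fun z : ℝ × E (Ix P Q) => z.1 ^ 2 * g₁ z.2 v w)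
        (Ioi 0 ×ˢ Metric.sphere (0 : E (Ix P Q)) 1) := by
      refine ContinuousOn.mul (continuous_fst.pow 2).continuousOn ?_
      exact (hg1.cont v w).comp continuous_snd.continuousOn (fun z hz => hz.2)
    exact h1 (t, x) ⟨ht, by simpa using hx⟩
  · intro x v hx hv _
    have h1 : ConcaveOn ℝ (Ioi (0 : ℝ)) (fun t : ℝ => Real.sqrt (g₁ x v v) • t) :=
      (concaveOn_id (convex_Ioi 0)).smul (Real.sqrt_nonneg _)
    refine h1.congr fun t ht => ?_
    simp only [smul_eq_mul]
    rw [Real.sqrt_mul (sq_nonneg t), Real.sqrt_sq (le_of_lt ht), mul_comm]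
  · intro x hx _
    have h1 : ConvexOn ℝ (Ioi (0 : ℝ))
        (fun t : ℝ => volDensity g₁ x • t ^ (Fintype.card (Ix P Q) - 1)) :=
      ((convexOn_pow _).subset Ioi_subset_Ici_self (convex_Ioi 0)).smul (Real.sqrt_nonneg _)
    refine h1.congr fun t ht => ?_
    simp only [smul_eq_mul]
    rw [itemBD1 (Ix P Q) g₁ (fun x v w => t ^ 2 * g₁ x v w) x t hg1 (hmt t ht) hx ht
      (fun v w _ _ => rfl), mul_comm]

/-- `g` is obtained from an invariant metric by multiplication with a positive function on an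
invariant distribution of rank at least two. -/
def PartConformal (g : Field (Ix P Q)) : Prop :=
  ∃ (h : Field (Ix P Q)) (p : E (Ix P Q) → E (Ix P Q) →ₗ[ℝ] E (Ix P Q)) (Z : Set (E (Ix P Q)))
    (φ : E (Ix P Q) → ℝ), IsMetric h ∧ IsInv h ∧ IsDistr h p Z ∧
    ContinuousOn φ (Metric.sphere (0 : E (Ix P Q)) 1) ∧ (∀ x, ‖x‖ = 1 → 0 < φ x) ∧
    (∀ x, ‖x‖ = 1 → φ (-x) = φ x) ∧ (∀ x ∈ Z, ‖x‖ = 1 → φ x = 1) ∧
    ∀ x v w, ‖x‖ = 1 → inner ℝ x v = 0 → inner ℝ x w = 0 → g x v w = modif h p φ x v w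

theorem part_inFamily {g : Field (Ix P Q)} (hc : PartConformal g) : InFamily g := by
  obtain ⟨h, p, Z, φ, hm, hi, hd, hc, hp, he, hz, hgm⟩ := hc
  refine ⟨fun t => modif h p (fun _ => t), Z, φ, ⟨hd.zinv, ?_, ?_, ?_, ?_, ?_⟩, hc, hp, he, hz,
    hgm⟩
  · intro t ht
    refine ⟨?_, ?_, ?_, ?_, ?_⟩
    · intro x v v' w
      simp only [modif, map_add, hm.add]
      ring
    · intro x v w r
      simp only [modif, map_smul, hm.smul]
      ring
    · intro x v w
      simp only [modif]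
      rw [hm.symm x v w, hm.symm x (p x v) (p x w)]
    · intro x v hx hv hv0
      exact modif_pos hm hd hx ht hv hv0
    · intro x v w hx hv hw
      simp only [modif]
      rw [hm.even x v w hx hv hw, hd.even x v hx, hd.even x w hx,
        hm.even x _ _ hx (hd.tangent x v hx) (hd.tangent x w hx)]
  · intro t ht
    exact modif_inv hi hd (fun _ _ _ _ _ _ => rfl)
  · intro v w t x ht hx hxt
    have hx0 : x ∈ Metric.sphere (0 : E (Ix P Q)) 1 := by simpa using hx
    have hmem : (t, x) ∈ Ioi (0 : ℝ) ×ˢ Metric.sphere (0 : E (Ix P Q)) 1 := ⟨ht, hx0⟩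
    simp only [modif]
    have a1 : ContinuousWithinAt (fun z : ℝ × E (Ix P Q) => h z.2 v w)
        (Ioi 0 ×ˢ Metric.sphere (0 : E (Ix P Q)) 1) (t, x) :=
      ContinuousWithinAt.comp (g := fun y => h y v w) (f := fun z : ℝ × E (Ix P Q) => z.2)
        (x := (t, x)) (hm.cont v w x hx0) continuous_snd.continuousWithinAt
        (fun z hz => (mem_prod.mp hz).2)
    refine a1.add ?_
    by_cases hxz : x ∈ Z
    · have ht1 : t = 1 := by
        rcases hxt with h1 | h1
        · exact absurd hxz h1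
        · exact h1
      obtain ⟨C, hC⟩ := modif_bound hm hd v w
      have h0 : (t - 1) * h x (p x v) (p x w) = 0 := by
        rw [ht1, sub_self, zero_mul]
      unfold ContinuousWithinAt
      simp only [h0]
      have h1 : Tendsto (fun z : ℝ × E (Ix P Q) => |z.1 - 1| * C)
          (𝓝[Ioi (0 : ℝ) ×ˢ Metric.sphere (0 : E (Ix P Q)) 1] (t, x)) (𝓝 0) := by
        have h2 : Continuous fun z : ℝ × E (Ix P Q) => |z.1 - 1| * C := by fun_prop
        have h3 := (h2.tendsto (t, x)).mono_left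
          (nhdsWithin_le_nhds (s := Ioi (0 : ℝ) ×ˢ Metric.sphere (0 : E (Ix P Q)) 1))
        simpa [ht1] using h3
      refine squeeze_zero_norm' ?_ h1
      filter_upwards [self_mem_nhdsWithin] with z hz
      rw [Real.norm_eq_abs, abs_mul]
      exact mul_le_mul_of_nonneg_left (hC z.2 (by simpa using hz.2)) (abs_nonneg _)
    · have h1 : ContinuousOn (fun x => h x (p x v) (p x w))
          (Metric.sphere (0 : E (Ix P Q)) 1 \ Z) := by
        refine iA1_continuousOn hm continuousOn_id (hd.cont v) (hd.cont w) ?_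
        intro x hx
        simpa using hx.1
      have h2 : ContinuousWithinAt (fun x => h x (p x v) (p x w))
          (Metric.sphere (0 : E (Ix P Q)) 1) x := by
        refine (h1 x ⟨hx0, hxz⟩).mono_of_mem_nhdsWithin ?_
        rw [sdiff_eq]
        exact inter_mem self_mem_nhdsWithin
          (mem_nhdsWithin_of_mem_nhds (hd.closed.isOpen_compl.mem_nhds hxz))
      have h3 : ContinuousWithinAt (fun z : ℝ × E (Ix P Q) => h z.2 (p z.2 v) (p z.2 w))
          (Ioi 0 ×ˢ Metric.sphere (0 : E (Ix P Q)) 1) (t, x) :=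
        ContinuousWithinAt.comp (g := fun y => h y (p y v) (p y w))
          (f := fun z : ℝ × E (Ix P Q) => z.2) (x := (t, x)) h2
          continuous_snd.continuousWithinAt (fun z hz => (mem_prod.mp hz).2)
      exact ((continuous_fst.sub continuous_const).continuousWithinAt).mul h3
  · intro x v hx hv _
    set B : ℝ := h x (p x v) (p x v) with hB
    set A : ℝ := h x (v - p x v) (v - p x v) with hA
    have hAB := pyth hm hd hx hv
    have nn : ∀ w, inner ℝ x w = 0 → 0 ≤ h x w w := by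
      intro w hw
      by_cases h0 : w = 0
      · rw [h0, iBD1_zero hm]
      · exact (hm.pos x w hx hw h0).le
    have ht := hd.tangent x v hx
    have hB0 : 0 ≤ B := nn _ ht
    have hA0 : 0 ≤ A := nn _ (by rw [inner_sub_right, hv, ht, sub_zero])
    have e2 : ∀ t : ℝ, modif h p (fun _ => t) x v v = A + t * B := by
      intro t
      simp only [modif]
      rw [hAB]
      ring
    simp only [e2]
    refine ⟨convex_Ioi 0, fun s hs t ht a b ha hb hab => ?_⟩
    have h1 := Real.strictConcaveOn_sqrt.concaveOn.2 (x := A + s * B) (y := A + t * B)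
      (by have := le_of_lt (mem_Ioi.mp hs); simp only [mem_Ici]; positivity)
      (by have := le_of_lt (mem_Ioi.mp ht); simp only [mem_Ici]; positivity) ha hb hab
    refine h1.trans (le_of_eq ?_)
    congr 1
    simp only [smul_eq_mul]
    have : A = (a + b) * A := by rw [hab, one_mul]
    nlinarith
  · intro x hx hxz
    have h1 : ConvexOn ℝ (Ioi (0 : ℝ)) (fun t : ℝ => volDensity h x •
        (Real.sqrt t ^ Module.finrank ℝ (LinearMap.range (p x)))) :=
      ((convex_sqrt_pow (hd.rank x hx hxz)).subset Ioi_subset_Ici_self (convex_Ioi 0)).smul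
        (Real.sqrt_nonneg _)
    refine h1.congr fun t ht => ?_
    simp only [smul_eq_mul]
    rw [modif_vol hm hd (φ := fun _ => t) hx ht, mul_comm]

/-- The sharp inequality for all metrics in a family. -/
theorem averaged (P Q : ℕ) (hP : 1 ≤ P) (hQ : 2 ≤ Q) (g : Field (Ix P Q)) (hg : IsMetric g)
    (hf : InFamily g) :
    ∃ (γ : ℝ → E (Ix P Q)) (l : ℝ), IsClosedGeodesic g γ l ∧
      (l / Real.pi) ^ (P + Q - 1) ≤ vol g / vol (round : Field (Ix P Q)) := by
  have : Nontrivial (Ix P Q) :=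
    ⟨Sum.inl ⟨0, by omega⟩, Sum.inr ⟨0, by omega⟩, by simp⟩
  obtain ⟨L, hL, hlen, γ, hγ⟩ := A6_holds (Ix P Q) g hg
  obtain ⟨HP⟩ := itemHaar P
  obtain ⟨HQ⟩ := itemHaar Q
  have hvr : 0 ≤ vol (round : Field (Ix P Q)) := by
    unfold vol
    refine mul_nonneg (by norm_num) (integral_nonneg fun x => Real.sqrt_nonneg _)
  obtain ⟨H, Z, φ, hH, hc, hp, he, hz, hgH⟩ := hf
  obtain ⟨hac, hap, hai, hae⟩ := BA_holds P Q hP (by omega) HP HQ φ hc hp he
  have haz := fam_avg_one HP HQ hH hz hc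
  have hm := sel_metric hH hac hap hae haz
  refine ⟨γ, L, hγ, ?_⟩
  refine (sharp_inv P Q hP hQ (sel H (avg HP HQ φ)) hm (sel_inv hH hap hai) L hL
    (dom_length HP HQ hg hm (sel_dominates HP HQ hH hc hp hz hap hgH) hlen)).trans ?_
  exact div_le_div_of_nonneg_right
    (sel_vol_le HP HQ hP (by omega) hg hH hc hp he hz haz hgH) hvr

/-- The tangential projection as a linear map. -/
def tangL (x : E (Ix P Q)) : E (Ix P Q) →ₗ[ℝ] E (Ix P Q) where
  toFun v := tang x v
  map_add' v w := by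
    unfold tang
    rw [inner_add_right, add_smul]
    abel
  map_smul' r v := by
    unfold tang
    rw [inner_smul_right, smul_sub, smul_smul]
    rfl

/-- Conformal changes are the case of the whole tangent space. -/
theorem conf_part (hP : 1 ≤ P) (hQ : 2 ≤ Q) {g : Field (Ix P Q)} (hg : IsMetric g)
    (hc : ConformallyInv g) : PartConformal g := by
  obtain ⟨g₁, u, hg1, ht1, hu, hupos, hgu⟩ := hc
  have hlp : ∀ x, ‖x‖ = 1 → 0 < Real.sqrt (u x) := fun x hx => Real.sqrt_pos.mpr (hupos x hx)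
  have hgl : ∀ x v w : E (Ix P Q), ‖x‖ = 1 → inner ℝ x v = 0 → inner ℝ x w = 0 →
      g x v w = (Real.sqrt (u x)) ^ 2 * g₁ x v w := by
    intro x v w hx hv hw
    rw [Real.sq_sqrt (hupos x hx).le]
    exact hgu x v w hx hv hw
  have htan : ∀ x v : E (Ix P Q), inner ℝ x v = 0 → tang x v = v := by
    intro x v hv
    unfold tang
    rw [hv, zero_smul, sub_zero]
  refine ⟨g₁, tangL, ∅, u, hg1, ht1, ⟨isClosed_empty, by simp, ?_, ?_, ?_, ?_, ?_, ?_, ?_, ?_⟩,
    hu, hupos, ?_, by simp, ?_⟩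
  · intro v
    refine Continuous.continuousOn ?_
    show Continuous fun x => tang x v
    unfold tang
    fun_prop
  · intro x v hx
    exact htan x _ (iBD1_inner_tang hx v)
  · intro x v hx
    exact iBD1_inner_tang hx v
  · intro x hx
    show tang x x = 0
    unfold tang
    rw [real_inner_self_eq_norm_sq, hx]
    simp
  · intro x v w hx hv hw
    show g₁ x (tang x v) w = g₁ x v (tang x w)
    rw [htan x v hv, htan x w hw]
  · intro x hx _
    have h1 : LinearMap.ker (tangL x) = Submodule.span ℝ {x} := by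
      ext v
      rw [LinearMap.mem_ker, Submodule.mem_span_singleton]
      constructor
      · intro h
        refine ⟨inner ℝ x v, ?_⟩
        have h2 : tang x v = 0 := h
        unfold tang at h2
        exact (sub_eq_zero.mp h2).symm
      · rintro ⟨a, rfl⟩
        show tang x (a • x) = 0
        unfold tang
        rw [inner_smul_right, real_inner_self_eq_norm_sq, hx]
        simp
    have h2 := LinearMap.finrank_range_add_finrank_ker (tangL x)
    have hx0 : x ≠ 0 := by
      intro h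
      rw [h, norm_zero] at hx
      exact zero_ne_one hx
    rw [h1, finrank_span_singleton hx0] at h2
    have h3 : Module.finrank ℝ (E (Ix P Q)) = P + Q := by simp
    rw [h3] at h2
    omega
  · intro x v hx
    show tang (-x) v = tang x v
    unfold tang
    rw [inner_neg_left, neg_smul_neg]
  · intro A hA B hB x v hx
    show tang (blk A B x) (blk A B v) = blk A B (tang x v)
    have hR : claimR := itemR
    have hadd : ∀ y z, blk A B (y + z) = blk A B y + blk A B z := fun y z =>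
      (hR P Q A hA B hB y z 0).1
    have hsub : blk A B (v - (inner ℝ x v) • x) = blk A B v - blk A B ((inner ℝ x v) • x) := by
      have h1 := hadd (v - (inner ℝ x v) • x) ((inner ℝ x v) • x)
      rw [sub_add_cancel] at h1
      rw [h1]
      abel
    unfold tang
    rw [(hR P Q A hA B hB x v 0).2.2.2.1, hsub, (hR P Q A hA B hB x x (inner ℝ x v)).2.1]
  · intro x hx
    have h1 := lam_even hP (by omega) hg hg1 hlp hgl x hx
    have hnx : ‖-x‖ = 1 := by rw [norm_neg, hx]
    have h2 := congrArg (fun t => t ^ 2) h1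
    simp only [Real.sq_sqrt (hupos x hx).le, Real.sq_sqrt (hupos _ hnx).le] at h2
    exact h2
  · intro x v w hx hv hw
    show g x v w = g₁ x v w + (u x - 1) * g₁ x (tang x v) (tang x w)
    rw [hgu x v w hx hv hw, htan x v hv, htan x w hw]
    ring

end Pool.Agent.Work.MP_02f065_gt.RPn
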