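import Pool.Agent.Work.MP_02f065_gt.RPn.Main

/-!
MP_02f065_gt: averaging over SO(P) x SO(Q) for metrics without symmetry. Part 1: the inequality
for invariant metrics, and the comparison of an arbitrary metric with an invariant one.
-/

open MeasureTheory Set Filter Topology

noncomputable section

namespace Pool.Agent.Work.MP_02f065_gt.RPn

attribute [local instance] HaarData.ms HaarData.prob

/-- The sharp inequality for an invariant metric. -/
theorem sharp_inv (P Q : ℕ) (hP : 1 ≤ P) (hQ : 2 ≤ Q) (h : Field (Ix P Q)) (hm : IsMetric h)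
    (hi : IsInv h) (L : ℝ) (hL : 0 < L)
    (hlen : ∀ (x : E (Ix P Q)) (c : ℝ → E (Ix P Q)), ‖x‖ = 1 → IsCurve c x (-x) →
      L ≤ length h c) :
    (L / Real.pi) ^ (P + Q - 1) ≤ vol h / vol (round : Field (Ix P Q)) := by
  rcases Nat.lt_or_ge P 2 with hP2 | hP2
  · have h1 : P = 1 := by omega
    subst h1
    have hcore := Z2_holds Q hQ h hm
    have hineq := itemZ5 _ L _ _ hcore (Z3_holds Q hQ h L hm hi hlen) (Z4_holds Q hQ h L hm hi hlen)
    have h3 := itemZ6 (Q - 2) _ L _ _ hL hcore hineq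
    have hpi := Real.pi_pos
    have hW2 := itemE4d 2 (Q - 2)
    have hW := itemE4d 0 (Q - 1)
    have hc7 := itemZ7 (Q - 2)
    have e1 : Q - 2 + 2 = Q := by omega
    have e2 : Q - 2 + 1 = Q - 1 := by omega
    rw [e1, e2] at h3
    rw [e2] at hc7
    obtain ⟨c, hc, hvol, hround⟩ := Z11_holds Q hQ
    have h4 := hvol _ hm hi
    set I := ∫ s in (0 : ℝ)..(Real.pi / 2), ca h s * Real.sqrt (cG h s) ^ (Q - 1) with hI
    have e5 : Real.pi ^ Q = Real.pi ^ (Q - 1) * Real.pi := by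
      rw [← pow_succ]
      congr 1
      omega
    have h5 : 2 * Wc 2 (Q - 2) * ((L / Real.pi) ^ Q * Wc 0 (Q - 1)) ≤ 2 * Wc 2 (Q - 2) * I := by
      refine le_trans (le_of_eq ?_) h3
      have h6 : 2 * Wc 2 (Q - 2) * ((L / Real.pi) ^ Q * Wc 0 (Q - 1)) =
          (L / Real.pi) ^ Q * (2 * Wc 2 (Q - 2) * Wc 0 (Q - 1)) := by ring
      rw [h6, ← hc7, div_pow, e5]
      field_simp
    have h6 : (L / Real.pi) ^ Q * Wc 0 (Q - 1) ≤ I := le_of_mul_le_mul_left h5 (by positivity)
    have e6 : 1 + Q - 1 = Q := by omega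
    rw [e6, hround, le_div_iff₀ (by positivity)]
    calc (L / Real.pi) ^ Q * (c * Wc 0 (Q - 1)) = c * ((L / Real.pi) ^ Q * Wc 0 (Q - 1)) := by ring
      _ ≤ c * I := mul_le_mul_of_nonneg_left h6 hc.le
      _ = vol h := h4.symm
  · have h3 := slice_ineq tC1 tC2 tC3 tD5 tE3 S1_holds S2_holds S3_holds itemS4 E3w_holds
      itemE4a itemE4b itemE4c itemE4d P Q hP2 hQ h hm hi L hL hlen
    obtain ⟨c, hc, hvol, hround⟩ := V3_holds P Q hP2 hQ
    have h4 := hvol _ hm hi
    have hW := itemE4d (P - 1) (Q - 1)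
    rw [hround, le_div_iff₀ (by positivity)]
    calc (L / Real.pi) ^ (P + Q - 1) * (c * Wc (P - 1) (Q - 1)) =
        c * ((L / Real.pi) ^ (P + Q - 1) * Wc (P - 1) (Q - 1)) := by ring
      _ ≤ c * _ := mul_le_mul_of_nonneg_left h3 hc.le
      _ = vol h := h4.symm

variable {P Q : ℕ} (HP : HaarData P) (HQ : HaarData Q)

/-- The norm of `h` dominates the averages of the norms of `g`. -/
def Dominates (g h : Field (Ix P Q)) : Prop :=
  ∀ x v : E (Ix P Q), ‖x‖ = 1 → inner ℝ x v = 0 →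
    ∫ p : HP.Ω × HQ.Ω, Real.sqrt (g (blk (HP.m p.1) (HQ.m p.2) x) (blk (HP.m p.1) (HQ.m p.2) v)
      (blk (HP.m p.1) (HQ.m p.2) v)) ∂(iBL_mu HP HQ) ≤ Real.sqrt (h x v v)

/-- Measurability of `(p, t) -> blk p (c t)`. -/
theorem blk_meas {c : ℝ → E (Ix P Q)} (hc : Measurable c) :
    Measurable fun q : (HP.Ω × HQ.Ω) × ℝ => blk (HP.m q.1.1) (HQ.m q.1.2) (c q.2) := by
  unfold blk
  refine (MeasurableEquiv.toLp 2 (Ix P Q → ℝ)).measurable.comp (measurable_pi_iff.mpr ?_)
  have hcoord : ∀ k : Ix P Q, Measurable fun q : (HP.Ω × HQ.Ω) × ℝ => (c q.2) k := by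
    intro k
    have h1 : Measurable fun x : E (Ix P Q) => x k :=
      (EuclideanSpace.proj (𝕜 := ℝ) k).continuous.measurable
    exact h1.comp (hc.comp measurable_snd)
  rintro (i | j)
  · show Measurable fun q : (HP.Ω × HQ.Ω) × ℝ =>
      (HP.m q.1.1).mulVec (fun i => (c q.2) (Sum.inl i)) i
    simp only [Matrix.mulVec, dotProduct]
    refine Finset.measurable_sum _ fun j _ => ?_
    exact ((HP.meas i j).comp (measurable_fst.comp measurable_fst)).mul (hcoord _)
  · show Measurable fun q : (HP.Ω × HQ.Ω) × ℝ =>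
      (HQ.m q.1.2).mulVec (fun i => (c q.2) (Sum.inr i)) j
    simp only [Matrix.mulVec, dotProduct]
    refine Finset.measurable_sum _ fun k _ => ?_
    exact ((HQ.meas j k).comp (measurable_snd.comp measurable_fst)).mul (hcoord _)

/-- A metric evaluated along measurable maps. -/
theorem metric_meas {g : Field (Ix P Q)} (hg : IsMetric g) {X : Type*} [MeasurableSpace X]
    {x v w : X → E (Ix P Q)} (hx : Measurable x) (hv : Measurable v) (hw : Measurable w)
    (h1 : ∀ p, ‖x p‖ = 1) : Measurable fun p => g (x p) (v p) (w p) := by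
  have e : (fun p => g (x p) (v p) (w p)) = fun p => ∑ i : Ix P Q, ∑ j : Ix P Q,
      g (x p) (iA1_b i) (iA1_b j) * (v p i * w p j) := by
    funext p
    rw [← iA1_toForm_apply hg]
    unfold iA1_toForm
    simp only [_root_.sum_apply, _root_.smul_apply,
      ContinuousLinearMap.smulRight_apply, smul_eq_mul]
    refine Finset.sum_congr rfl fun i _ => Finset.sum_congr rfl fun j _ => ?_
    simp
  rw [e]
  have hk : ∀ k : Ix P Q, Measurable fun x : E (Ix P Q) => x k := fun k =>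
    (EuclideanSpace.proj (𝕜 := ℝ) k).continuous.measurable
  refine Finset.measurable_sum _ fun i _ => Finset.measurable_sum _ fun j _ => ?_
  refine Measurable.mul ?_ (((hk i).comp hv).mul ((hk j).comp hw))
  have hm : Measurable fun p => (⟨x p, by simp [h1 p]⟩ : Metric.sphere (0 : E (Ix P Q)) 1) :=
    hx.subtype_mk
  exact (continuousOn_iff_continuous_domRestrict.mp (hg.cont (iA1_b i) (iA1_b j))).measurable.comp hm

theorem dom_length {g h : Field (Ix P Q)} {L : ℝ} (hg : IsMetric g) (hh : IsMetric h)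
    (hd : Dominates HP HQ g h)
    (hL : ∀ (x : E (Ix P Q)) (c : ℝ → E (Ix P Q)), ‖x‖ = 1 → IsCurve c x (-x) → L ≤ length g c)
    (x : E (Ix P Q)) (c : ℝ → E (Ix P Q)) (hx : ‖x‖ = 1) (hc : IsCurve c x (-x)) :
    L ≤ length h c := by
  have hR : claimR := itemR
  obtain ⟨m, M, hm, hM, hb⟩ := itemA1 (Ix P Q) g hg
  have hcc : Continuous c := hc.smooth.continuous
  have hdc : Continuous (deriv c) := hc.smooth.continuous_deriv_one
  have htan : ∀ t, inner ℝ (c t) (deriv c t) = 0 := iBL_inner_deriv hc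
  set f : (HP.Ω × HQ.Ω) × ℝ → ℝ := fun q =>
    Real.sqrt (g (blk (HP.m q.1.1) (HQ.m q.1.2) (c q.2))
      (blk (HP.m q.1.1) (HQ.m q.1.2) (deriv c q.2))
      (blk (HP.m q.1.1) (HQ.m q.1.2) (deriv c q.2))) with hf
  have hn : ∀ (p : HP.Ω × HQ.Ω) (y : E (Ix P Q)), ‖blk (HP.m p.1) (HQ.m p.2) y‖ = ‖y‖ :=
    fun p y => (hR P Q _ (HP.mem p.1) _ (HQ.mem p.2) y y 0).2.2.2.2.1
  have hin : ∀ (p : HP.Ω × HQ.Ω) (y z : E (Ix P Q)),
      inner ℝ (blk (HP.m p.1) (HQ.m p.2) y) (blk (HP.m p.1) (HQ.m p.2) z) = inner ℝ y z :=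
    fun p y z => (hR P Q _ (HP.mem p.1) _ (HQ.mem p.2) y z 0).2.2.2.1
  have hfm : Measurable f := by
    refine Real.continuous_sqrt.measurable.comp ?_
    refine metric_meas hg (blk_meas HP HQ hcc.measurable) (blk_meas HP HQ hdc.measurable)
      (blk_meas HP HQ hdc.measurable) ?_
    intro q
    rw [hn, hc.sphere]
  obtain ⟨D, hD⟩ := (isCompact_Icc (a := (0 : ℝ)) (b := 1)).exists_bound_of_continuousOn
    hdc.norm.continuousOn
  have hfb : ∀ q : (HP.Ω × HQ.Ω) × ℝ, q.2 ∈ Ioc (0 : ℝ) 1 → ‖f q‖ ≤ M * D := by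
    intro q hq
    have h1 := (hb (blk (HP.m q.1.1) (HQ.m q.1.2) (c q.2))
      (blk (HP.m q.1.1) (HQ.m q.1.2) (deriv c q.2)) (by rw [hn, hc.sphere])
      (by rw [hin, htan])).2
    rw [hn] at h1
    rw [Real.norm_eq_abs, abs_of_nonneg (Real.sqrt_nonneg _)]
    have h2 : ‖deriv c q.2‖ ≤ D := by
      have := hD q.2 (Ioc_subset_Icc_self hq)
      rwa [norm_norm] at this
    calc f q ≤ Real.sqrt ((M * ‖deriv c q.2‖) ^ 2) := Real.sqrt_le_sqrt (by rw [mul_pow]; exact h1)
      _ = M * ‖deriv c q.2‖ := Real.sqrt_sq (by positivity)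
      _ ≤ M * D := mul_le_mul_of_nonneg_left h2 hM.le
  have hint : Integrable f ((iBL_mu HP HQ).prod ((volume : Measure ℝ).restrict (Ioc (0 : ℝ) 1))) := by
    refine Integrable.of_bound hfm.aestronglyMeasurable (M * D) ?_
    have h3 : ∀ᵐ q : (HP.Ω × HQ.Ω) × ℝ ∂((iBL_mu HP HQ).prod
        ((volume : Measure ℝ).restrict (Ioc (0 : ℝ) 1))), q.2 ∈ Ioc (0 : ℝ) 1 := by
      have h4 : ∀ᵐ t : ℝ ∂((volume : Measure ℝ).restrict (Ioc (0 : ℝ) 1)), t ∈ Ioc (0 : ℝ) 1 :=
        ae_restrict_mem measurableSet_Ioc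
      exact Measure.quasiMeasurePreserving_snd.ae h4
    filter_upwards [h3] with q hq
    exact hfb q hq
  have hrot : ∀ p : HP.Ω × HQ.Ω, L ≤ ∫ t in Ioc (0 : ℝ) 1, f (p, t) := by
    intro p
    obtain ⟨h1, h2⟩ := iBL_curve hR (HP.mem p.1) (HQ.mem p.2) hc
    have h3 := hL _ _ (by rw [hn, hx]) h1
    unfold length at h3
    rw [intervalIntegral.integral_of_le zero_le_one] at h3
    refine h3.trans (le_of_eq ?_)
    refine setIntegral_congr_fun measurableSet_Ioc fun t _ => ?_
    simp only [hf, h2 t]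
  have h5 : ∫ _p : HP.Ω × HQ.Ω, L ∂(iBL_mu HP HQ) = L := by simp
  have h6 : L ≤ ∫ p, (∫ t in Ioc (0 : ℝ) 1, f (p, t)) ∂(iBL_mu HP HQ) := by
    rw [← h5]
    exact integral_mono (integrable_const L) hint.integral_prod_left fun p => hrot p
  rw [integral_integral_swap (f := fun (p : HP.Ω × HQ.Ω) (t : ℝ) => f (p, t)) hint] at h6
  refine h6.trans ?_
  unfold length
  rw [intervalIntegral.integral_of_le zero_le_one]
  refine integral_mono hint.swap.integral_prod_left ?_ fun t => ?_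
  · have hcont : Continuous fun t => Real.sqrt (h (c t) (deriv c t) (deriv c t)) :=
      Real.continuous_sqrt.comp (iBL_speed_cont hh hc)
    exact (hcont.integrableOn_Icc (a := 0) (b := 1)).mono_set Ioc_subset_Icc_self
  · exact hd (c t) (deriv c t) (hc.sphere t) (htan t)

/-- determinant of `id + (t-1) p` for a projection -/
theorem det_proj {M : Type} [AddCommGroup M] [Module ℝ M] [FiniteDimensional ℝ M]
    (f : M →ₗ[ℝ] M) (hf : ∀ v, f (f v) = f v) (t : ℝ) :
    LinearMap.det (LinearMap.id + (t - 1) • f) = t ^ Module.finrank ℝ (LinearMap.range f) := by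
  have hp : LinearMap.IsProj (LinearMap.range f) f :=
    ⟨fun x => ⟨x, rfl⟩, fun x hx => by obtain ⟨y, rfl⟩ := hx; exact hf y⟩
  set e := (LinearMap.range f).prodEquivOfIsCompl (LinearMap.ker f) hp.isCompl with he
  have h1 : f = e.toLinearMap ∘ₗ (LinearMap.prodMap LinearMap.id 0) ∘ₗ e.symm.toLinearMap :=
    hp.eq_conj_prod_map'
  have h2 : LinearMap.id + (t - 1) • f = e.toLinearMap ∘ₗ
      (LinearMap.prodMap (t • LinearMap.id) LinearMap.id) ∘ₗ e.symm.toLinearMap := by
    conv_lhs => rw [h1]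
    ext v
    simp only [LinearMap.add_apply, LinearMap.id_coe, id_eq, LinearMap.smul_apply,
      LinearMap.comp_apply, LinearEquiv.coe_coe]
    obtain ⟨w, rfl⟩ := e.surjective v
    rw [LinearEquiv.symm_apply_apply]
    rw [← map_smul, ← map_add]
    congr 1
    ext
    · simp only [LinearMap.prodMap_apply, LinearMap.id_coe, id_eq, LinearMap.zero_apply, Prod.fst_add, Prod.smul_fst, LinearMap.smul_apply, Submodule.coe_add, Submodule.coe_smul]; module
    · simp
  rw [h2, LinearMap.det_conj, LinearMap.det_prodMap]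
  simp

/-! ### Conformal change on an invariant distribution -/

/-- `h` with its restriction to the range of `p x` multiplied by `φ x`. -/
def modif (h : Field (Ix P Q)) (p : E (Ix P Q) → E (Ix P Q) →ₗ[ℝ] E (Ix P Q))
    (φ : E (Ix P Q) → ℝ) : Field (Ix P Q) :=
  fun x v w => h x v w + (φ x - 1) * h x (p x v) (p x w)

/-- `p x` is the `h`-orthogonal projection of the tangent space at `x` onto an invariant
distribution, continuous and of rank at least two outside the closed invariant set `Z`. -/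
structure IsDistr (h : Field (Ix P Q)) (p : E (Ix P Q) → E (Ix P Q) →ₗ[ℝ] E (Ix P Q))
    (Z : Set (E (Ix P Q))) : Prop where
  closed : IsClosed Z
  zinv : ∀ A ∈ SO P, ∀ B ∈ SO Q, ∀ x ∈ Z, blk A B x ∈ Z
  cont : ∀ v, ContinuousOn (fun x => p x v) (Metric.sphere (0 : E (Ix P Q)) 1 \ Z)
  proj : ∀ x v, ‖x‖ = 1 → p x (p x v) = p x v
  tangent : ∀ x v, ‖x‖ = 1 → inner ℝ x (p x v) = 0
  normal : ∀ x, ‖x‖ = 1 → p x x = 0
  symm : ∀ x v w, ‖x‖ = 1 → inner ℝ x v = 0 → inner ℝ x w = 0 → h x (p x v) w = h x v (p x w)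
  rank : ∀ x, ‖x‖ = 1 → x ∉ Z → 2 ≤ Module.finrank ℝ (LinearMap.range (p x))
  even : ∀ x v, ‖x‖ = 1 → p (-x) v = p x v
  inv : ∀ A ∈ SO P, ∀ B ∈ SO Q, ∀ x v, ‖x‖ = 1 → p (blk A B x) (blk A B v) = blk A B (p x v)

section modif

variable {h : Field (Ix P Q)} {p : E (Ix P Q) → E (Ix P Q) →ₗ[ℝ] E (Ix P Q)}
  {Z : Set (E (Ix P Q))}

theorem pyth (hm : IsMetric h) (hd : IsDistr h p Z) {x v : E (Ix P Q)} (hx : ‖x‖ = 1)
    (hv : inner ℝ x v = 0) :
    h x v v = h x (p x v) (p x v) + h x (v - p x v) (v - p x v) := by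
  have e1 : ∀ a b c : E (Ix P Q), h x (a - b) c = h x a c - h x b c := by
    intro a b c
    have h1 := hm.add x (a - b) b c
    rw [sub_add_cancel] at h1
    linarith
  have e2 : ∀ a b c : E (Ix P Q), h x c (a - b) = h x c a - h x c b := by
    intro a b c
    rw [hm.symm, e1, hm.symm x a, hm.symm x b]
  have e3 : h x (p x v) (p x v) = h x (p x v) v := by
    rw [← hd.symm x (p x v) v hx (hd.tangent x v hx) hv, hd.proj x v hx]
  rw [e1, e2, e2, hm.symm x v (p x v), e3]
  ring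

theorem modif_pos (hm : IsMetric h) (hd : IsDistr h p Z) {φ : E (Ix P Q) → ℝ} {x v : E (Ix P Q)}
    (hx : ‖x‖ = 1) (hφ : 0 < φ x) (hv : inner ℝ x v = 0) (hv0 : v ≠ 0) :
    0 < modif h p φ x v v := by
  unfold modif
  rw [pyth hm hd hx hv]
  have ht := hd.tangent x v hx
  have ht2 : inner ℝ x (v - p x v) = 0 := by rw [inner_sub_right, hv, ht, sub_zero]
  have nn : ∀ w, inner ℝ x w = 0 → 0 ≤ h x w w := by
    intro w hw
    by_cases h0 : w = 0
    · rw [h0, iBD1_zero hm]
    · exact (hm.pos x w hx hw h0).le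
  have a1 := nn _ ht
  have a2 := nn _ ht2
  by_cases h0 : p x v = 0
  · have h1 : 0 < h x (v - p x v) (v - p x v) := by
      refine hm.pos x _ hx ht2 ?_
      rwa [h0, sub_zero]
    have h2 : h x (p x v) (p x v) = 0 := by rw [h0, iBD1_zero hm]
    rw [h2]
    linarith
  · have h1 := hm.pos x _ hx ht h0
    nlinarith

theorem modif_bound (hm : IsMetric h) (hd : IsDistr h p Z) (v w : E (Ix P Q)) :
    ∃ C : ℝ, ∀ x, ‖x‖ = 1 → |h x (p x v) (p x w)| ≤ C := by
  obtain ⟨m, M, hm0, hM0, hb⟩ := itemA1 (Ix P Q) h hm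
  refine ⟨(M ^ 2 * ‖v‖ ^ 2 + M ^ 2 * ‖w‖ ^ 2) / 2, fun x hx => ?_⟩
  have nn : ∀ w, inner ℝ x w = 0 → 0 ≤ h x w w := by
    intro w hw
    by_cases h0 : w = 0
    · rw [h0, iBD1_zero hm]
    · exact (hm.pos x w hx hw h0).le
  have hptang : ∀ v, p x (tang x v) = p x v := by
    intro v
    unfold tang
    rw [map_sub, map_smul, hd.normal x hx, smul_zero, sub_zero]
  have hle : ∀ v, h x (p x v) (p x v) ≤ M ^ 2 * ‖v‖ ^ 2 := by
    intro v
    have ht := iBD1_inner_tang hx v
    have h1 := pyth hm hd hx ht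
    have h2 := nn (tang x v - p x (tang x v))
      (by rw [inner_sub_right, ht, hd.tangent x _ hx, sub_zero])
    rw [hptang] at h1 h2
    have h3 := (hb x (tang x v) hx ht).2
    have h4 : ‖tang x v‖ ^ 2 ≤ ‖v‖ ^ 2 := by
      have h5 : ‖v‖ ^ 2 = ‖tang x v‖ ^ 2 + (inner ℝ x v) ^ 2 := by
        have h6 : v = tang x v + (inner ℝ x v) • x := by unfold tang; simp
        have h7 : inner ℝ (tang x v) ((inner ℝ x v) • x) = 0 := by
          rw [inner_smul_right, real_inner_comm x (tang x v), ht, mul_zero]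
        have h8 := norm_add_sq_real (tang x v) ((inner ℝ x v) • x)
        rw [h7, ← h6, norm_smul, hx, mul_one, Real.norm_eq_abs, sq_abs] at h8
        linarith
      nlinarith [sq_nonneg (inner ℝ x v : ℝ)]
    have h9 : M ^ 2 * ‖tang x v‖ ^ 2 ≤ M ^ 2 * ‖v‖ ^ 2 :=
      mul_le_mul_of_nonneg_left h4 (sq_nonneg M)
    linarith
  have e1 : ∀ a b c : E (Ix P Q), h x c (a + b) = h x c a + h x c b := by
    intro a b c
    rw [hm.symm, hm.add, hm.symm x a, hm.symm x b]
  have e2 : ∀ a b : E (Ix P Q), h x b (-a) = -h x b a := by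
    intro a b
    rw [hm.symm x b (-a), show -a = (-1 : ℝ) • a by simp, hm.smul, hm.symm x a b]
    ring
  set a := p x v with ha
  set b := p x w with hb'
  have p1 := nn (a + b) (by rw [inner_add_right, hd.tangent x v hx, hd.tangent x w hx, add_zero])
  have p2 := nn (a + -b) (by
    rw [inner_add_right, inner_neg_right, hd.tangent x v hx, hd.tangent x w hx, neg_zero, add_zero])
  rw [hm.add, e1, e1, hm.symm x b a] at p1
  rw [hm.add, e1, e1, hm.symm x (-b) a, e2, e2, hm.symm x (-b) b, e2] at p2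
  have q1 := hle v
  have q2 := hle w
  rw [abs_le]
  constructor <;> linarith

theorem modif_metric (hm : IsMetric h) (hd : IsDistr h p Z) {φ : E (Ix P Q) → ℝ}
    (hc : ContinuousOn φ (Metric.sphere (0 : E (Ix P Q)) 1)) (hp : ∀ x, ‖x‖ = 1 → 0 < φ x)
    (hz : ∀ x ∈ Z, ‖x‖ = 1 → φ x = 1)
    (he : ∀ x, ‖x‖ = 1 → φ (-x) = φ x) : IsMetric (modif h p φ) := by
  refine ⟨?_, ?_, ?_, ?_, ?_, ?_⟩
  · intro x v v' w
    simp only [modif, map_add, hm.add]
    ring
  · intro x v w r
    simp only [modif, map_smul, hm.smul]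
    ring
  · intro x v w
    simp only [modif]
    rw [hm.symm x v w, hm.symm x (p x v) (p x w)]
  · intro v w
    refine (hm.cont v w).add ?_
    intro x0 hx0
    by_cases hxz : x0 ∈ Z
    · obtain ⟨C, hC⟩ := modif_bound hm hd v w
      have hx1 : ‖x0‖ = 1 := by simpa using hx0
      have h0 : (φ x0 - 1) * h x0 (p x0 v) (p x0 w) = 0 := by
        rw [hz x0 hxz hx1, sub_self, zero_mul]
      unfold ContinuousWithinAt
      simp only [h0]
      have h1 : Tendsto (fun x => |φ x - 1| * C) (𝓝[Metric.sphere (0 : E (Ix P Q)) 1] x0) (𝓝 0) := by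
        have h2 : Tendsto φ (𝓝[Metric.sphere (0 : E (Ix P Q)) 1] x0) (𝓝 1) := by
          have := hc x0 hx0
          unfold ContinuousWithinAt at this
          rwa [hz x0 hxz hx1] at this
        have h3 := ((h2.sub_const 1).abs).mul_const C
        simpa using h3
      refine squeeze_zero_norm' ?_ h1
      filter_upwards [self_mem_nhdsWithin] with x hx
      rw [Real.norm_eq_abs, abs_mul]
      exact mul_le_mul_of_nonneg_left (hC x (by simpa using hx)) (abs_nonneg _)
    · have h1 : ContinuousOn (fun x => h x (p x v) (p x w))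
          (Metric.sphere (0 : E (Ix P Q)) 1 \ Z) := by
        refine iA1_continuousOn hm continuousOn_id (hd.cont v) (hd.cont w) ?_
        intro x hx
        simpa using hx.1
      have h2 : ContinuousWithinAt (fun x => h x (p x v) (p x w))
          (Metric.sphere (0 : E (Ix P Q)) 1) x0 := by
        refine (h1 x0 ⟨hx0, hxz⟩).mono_of_mem_nhdsWithin ?_
        rw [sdiff_eq]
        exact inter_mem self_mem_nhdsWithin
          (mem_nhdsWithin_of_mem_nhds (hd.closed.isOpen_compl.mem_nhds hxz))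
      exact ((hc x0 hx0).sub continuousWithinAt_const).mul h2
  · intro x v hx hv hv0
    exact modif_pos hm hd hx (hp x hx) hv hv0
  · intro x v w hx hv hw
    simp only [modif]
    rw [hm.even x v w hx hv hw, hd.even x v hx, hd.even x w hx, he x hx,
      hm.even x _ _ hx (hd.tangent x v hx) (hd.tangent x w hx)]

theorem modif_inv (hi : IsInv h) (hd : IsDistr h p Z) {φ : E (Ix P Q) → ℝ}
    (hφ : ∀ A ∈ SO P, ∀ B ∈ SO Q, ∀ x, ‖x‖ = 1 → φ (blk A B x) = φ x) :
    IsInv (modif h p φ) := by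
  intro A hA B hB x v w hx hv hw
  simp only [modif]
  rw [hi A hA B hB x v w hx hv hw, hφ A hA B hB x hx, hd.inv A hA B hB x v hx,
    hd.inv A hA B hB x w hx, hi A hA B hB x _ _ hx (hd.tangent x v hx) (hd.tangent x w hx)]

/-- The volume density depends only on the values on the tangent space. -/
theorem volDensity_congr {g g' : Field (Ix P Q)} {x : E (Ix P Q)} (hx : ‖x‖ = 1)
    (h : ∀ v w, inner ℝ x v = 0 → inner ℝ x w = 0 → g x v w = g' x v w) :
    volDensity g x = volDensity g' x := by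
  unfold volDensity
  congr 3
  ext i j
  simp only [gram]
  rw [h _ _ (iBD1_inner_tang hx _) (iBD1_inner_tang hx _)]

theorem modif_vol (hm : IsMetric h) (hd : IsDistr h p Z) {φ : E (Ix P Q) → ℝ} {x : E (Ix P Q)}
    (hx : ‖x‖ = 1) (hφ : 0 < φ x) :
    volDensity (modif h p φ) x =
      Real.sqrt (φ x) ^ Module.finrank ℝ (LinearMap.range (p x)) * volDensity h x := by
  set k := Module.finrank ℝ (LinearMap.range (p x)) with hk
  -- the matrix of `p x`
  set b := (EuclideanSpace.basisFun (Ix P Q) ℝ).toBasis with hb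
  set T : Matrix (Ix P Q) (Ix P Q) ℝ := LinearMap.toMatrix b b (p x) with hT
  have hbi : ∀ i, b i = ei i := by
    intro i
    rw [hb]
    simp [ei]
  have hTi : ∀ m i, T m i = (p x (ei i)) m := by
    intro m i
    rw [hT, LinearMap.toMatrix_apply, hbi]
    simp [hb]
  have hptang : ∀ v, p x (tang x v) = p x v := by
    intro v
    unfold tang
    rw [map_sub, map_smul, hd.normal x hx, smul_zero, sub_zero]
  have hgram : Matrix.of (gram (modif h p φ) x) =
      Matrix.transpose (1 + (φ x - 1) • T) * Matrix.of (gram h x) := by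
    ext i j
    rw [Matrix.mul_apply]
    simp only [Matrix.of_apply, gram, modif, Matrix.transpose_apply, Matrix.add_apply,
      Matrix.smul_apply, smul_eq_mul]
    have e1 : h x (p x (tang x (ei i))) (p x (tang x (ei j))) =
        ∑ m, T m i * (h x (tang x (ei m)) (tang x (ei j)) + x m * x j) := by
      have a1 : h x (p x (tang x (ei i))) (p x (tang x (ei j))) =
          h x (p x (ei i)) (tang x (ei j)) := by
        rw [hptang (ei i), ← hd.symm x _ _ hx (hd.tangent x _ hx) (iBD1_inner_tang hx _),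
          hd.proj x _ hx]
      have a2 : p x (ei i) = ∑ m, T m i • tang x (ei m) := by
        have c1 : tang x (p x (ei i)) = p x (ei i) := by
          unfold tang
          rw [hd.tangent x _ hx, zero_smul, sub_zero]
        rw [← c1]
        have c2 : p x (ei i) = ∑ m, T m i • (ei m : E (Ix P Q)) := by
          conv_lhs => rw [iBD1_sum (x := p x (ei i))]
          simp only [hTi]
        rw [c2]
        unfold tang
        rw [inner_sum]
        simp only [inner_smul_right, Finset.sum_smul, smul_sub, Finset.sum_sub_distrib, smul_smul]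
      have a3 : ∑ m, T m i * (x m * x j) = 0 := by
        have c3 : ∑ m, x m * (p x (ei i)) m = 0 := by
          have := hd.tangent x (ei i) hx
          rw [PiLp.inner_apply] at this
          simpa [mul_comm] using this
        have c4 : ∑ m, T m i * (x m * x j) = (∑ m, x m * (p x (ei i)) m) * x j := by
          rw [Finset.sum_mul]
          refine Finset.sum_congr rfl fun m _ => ?_
          rw [hTi]
          ring
        rw [c4, c3, zero_mul]
      rw [a1]
      conv_lhs => rw [a2]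
      rw [iBD1_gsum hm]
      simp only [mul_add, Finset.sum_add_distrib, a3, add_zero]
    rw [e1]
    simp only [add_mul, Finset.sum_add_distrib, Matrix.one_apply]
    have e2 : ∑ m, (if m = i then (1 : ℝ) else 0) *
        (h x (tang x (ei m)) (tang x (ei j)) + x m * x j) =
        h x (tang x (ei i)) (tang x (ei j)) + x i * x j := by
      simp
    rw [e2, Finset.mul_sum]
    have e3 : ∀ m, (φ x - 1) * (T m i * (h x (tang x (ei m)) (tang x (ei j)) + x m * x j)) =
        (φ x - 1) * T m i * (h x (tang x (ei m)) (tang x (ei j)) + x m * x j) := fun m => by ring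
    simp only [e3]
    ring
  have hdet : Matrix.det (1 + (φ x - 1) • T) = φ x ^ k := by
    have e : 1 + (φ x - 1) • T = LinearMap.toMatrix b b (LinearMap.id + (φ x - 1) • p x) := by
      rw [map_add, map_smul, LinearMap.toMatrix_id]
    rw [e, LinearMap.det_toMatrix]
    exact det_proj (p x) (fun v => hd.proj x v hx) (φ x)
  unfold volDensity
  rw [hgram, Matrix.det_mul, Matrix.det_transpose, hdet, Real.sqrt_mul (by positivity),
    Real.sqrt_eq_rpow, ← Real.rpow_natCast, ← Real.rpow_mul hφ.le]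
  congr 1
  rw [Real.sqrt_eq_rpow, ← Real.rpow_natCast, ← Real.rpow_mul hφ.le]
  ring_nf

theorem rank_inv (hd : IsDistr h p Z) {A : Matrix (Fin P) (Fin P) ℝ} (hA : A ∈ SO P)
    {B : Matrix (Fin Q) (Fin Q) ℝ} (hB : B ∈ SO Q) {x : E (Ix P Q)} (hx : ‖x‖ = 1) :
    Module.finrank ℝ (LinearMap.range (p (blk A B x))) =
      Module.finrank ℝ (LinearMap.range (p x)) := by
  obtain ⟨e, he⟩ := iBS_equiv itemR hA hB
  have h1 : LinearMap.range (p (blk A B x)) =
      (LinearMap.range (p x)).map e.toLinearEquiv.toLinearMap := by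
    ext v
    simp only [LinearMap.mem_range, Submodule.mem_map]
    constructor
    · rintro ⟨u, rfl⟩
      obtain ⟨u', rfl⟩ := e.surjective u
      refine ⟨p x u', ⟨u', rfl⟩, ?_⟩
      show e (p x u') = p (blk A B x) (e u')
      rw [he, he, hd.inv A hA B hB x u' hx]
    · rintro ⟨w, ⟨u, rfl⟩, rfl⟩
      refine ⟨e u, ?_⟩
      show p (blk A B x) (e u) = e (p x u)
      rw [he, he, hd.inv A hA B hB x u hx]
  rw [h1]
  exact LinearEquiv.finrank_map_eq e.toLinearEquiv _

end modif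

/-! ### The averaged metric -/

/-- Integrals over the sphere of averages. -/
theorem sphere_avg_le (hP : 1 ≤ P) (hQ : 1 ≤ Q) {D1 D2 : E (Ix P Q) → ℝ}
    (c1 : ContinuousOn D1 (Metric.sphere (0 : E (Ix P Q)) 1))
    (c2 : ContinuousOn D2 (Metric.sphere (0 : E (Ix P Q)) 1))
    (hle : ∀ x, ‖x‖ = 1 → D2 x ≤ ∫ p, D1 (blk (HP.m p.1) (HQ.m p.2) x) ∂(iBV_mu HP HQ)) :
    ∫ x : Metric.sphere (0 : E (Ix P Q)) 1, D2 x ∂((volume : Measure (E (Ix P Q))).toSphere) ≤
      ∫ x : Metric.sphere (0 : E (Ix P Q)) 1, D1 x ∂((volume : Measure (E (Ix P Q))).toSphere) := by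
  have hR : claimR := itemR
  have hint := iBV_int HP HQ hR c1
  have e1 : ∫ x : Metric.sphere (0 : E (Ix P Q)) 1, D1 x
        ∂((volume : Measure (E (Ix P Q))).toSphere) =
      ∫ x : Metric.sphere (0 : E (Ix P Q)) 1, ∫ p,
        D1 (blk (HP.m p.1) (HQ.m p.2) x) ∂(iBV_mu HP HQ)
          ∂((volume : Measure (E (Ix P Q))).toSphere) := by
    rw [← integral_integral_swap hint]
    have e2 : ∀ p : HP.Ω × HQ.Ω, ∫ x : Metric.sphere (0 : E (Ix P Q)) 1,
        D1 (blk (HP.m p.1) (HQ.m p.2) x) ∂((volume : Measure (E (Ix P Q))).toSphere) =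
        ∫ x : Metric.sphere (0 : E (Ix P Q)) 1, D1 x
          ∂((volume : Measure (E (Ix P Q))).toSphere) := fun p =>
      BS_holds P Q hP hQ _ (HP.mem p.1) _ (HQ.mem p.2) _ c1
    simp_rw [e2]
    simp
  rw [e1]
  refine integral_mono ?_ hint.swap.integral_prod_left ?_
  · obtain ⟨C, hC⟩ := (isCompact_sphere (0 : E (Ix P Q)) 1).exists_bound_of_continuousOn c2
    refine Integrable.of_bound
      (continuousOn_iff_continuous_domRestrict.mp c2).measurable.aestronglyMeasurable C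
      (Eventually.of_forall fun x => hC _ x.2)
  · intro x
    exact hle x (by simp)

theorem convex_sqrt_pow {k : ℕ} (hk : 2 ≤ k) :
    ConvexOn ℝ (Ici (0 : ℝ)) (fun s => Real.sqrt s ^ k) := by
  have h1 : (1 : ℝ) ≤ (k : ℝ) / 2 := by
    have : (2 : ℝ) ≤ k := by exact_mod_cast hk
    linarith
  refine (convexOn_rpow h1).congr fun s hs => ?_
  simp only
  rw [Real.sqrt_eq_rpow, ← Real.rpow_natCast, ← Real.rpow_mul hs]
  congr 1
  ring

section avg

variable {h g : Field (Ix P Q)} {p : E (Ix P Q) → E (Ix P Q) →ₗ[ℝ] E (Ix P Q)}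
  {φ : E (Ix P Q) → ℝ} {Z : Set (E (Ix P Q))}

theorem modif_dominates (hm : IsMetric h) (hi : IsInv h) (hd : IsDistr h p Z)
    (hc : ContinuousOn φ (Metric.sphere (0 : E (Ix P Q)) 1)) (hp : ∀ x, ‖x‖ = 1 → 0 < φ x)
    (hg : ∀ x v w, ‖x‖ = 1 → inner ℝ x v = 0 → inner ℝ x w = 0 →
      g x v w = modif h p φ x v w) :
    Dominates HP HQ g (modif h p (avg HP HQ φ)) := by
  have hR : claimR := itemR
  intro x v hx hv
  set B : ℝ := h x (p x v) (p x v) with hB
  set A : ℝ := h x (v - p x v) (v - p x v) with hA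
  have hAB := pyth hm hd hx hv
  have nn : ∀ w, inner ℝ x w = 0 → 0 ≤ h x w w := by
    intro w hw
    by_cases h0 : w = 0
    · rw [h0, iBD1_zero hm]
    · exact (hm.pos x w hx hw h0).le
  have ht := hd.tangent x v hx
  have hB0 : 0 ≤ B := nn _ ht
  have hA0 : 0 ≤ A := nn _ (by rw [inner_sub_right, hv, ht, sub_zero])
  have e1 : ∀ q : HP.Ω × HQ.Ω, g (blk (HP.m q.1) (HQ.m q.2) x) (blk (HP.m q.1) (HQ.m q.2) v)
      (blk (HP.m q.1) (HQ.m q.2) v) = A + φ (blk (HP.m q.1) (HQ.m q.2) x) * B := by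
    intro q
    have hn := iBL_norm HP HQ hR q x hx
    have hin : inner ℝ (blk (HP.m q.1) (HQ.m q.2) x) (blk (HP.m q.1) (HQ.m q.2) v) = 0 := by
      rw [(hR P Q _ (HP.mem q.1) _ (HQ.mem q.2) x v 0).2.2.2.1, hv]
    rw [hg _ _ _ hn hin hin]
    simp only [modif]
    rw [hi _ (HP.mem q.1) _ (HQ.mem q.2) x v v hx hv hv, hd.inv _ (HP.mem q.1) _ (HQ.mem q.2) x v hx,
      hi _ (HP.mem q.1) _ (HQ.mem q.2) x _ _ hx ht ht, hAB]
    ring
  have e2 : modif h p (avg HP HQ φ) x v v = A + avg HP HQ φ x * B := by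
    simp only [modif]
    rw [hAB]
    ring
  simp only [e1]
  rw [e2]
  have i1 := iBL_int1 HP HQ hR hc x hx
  have e3 : A + avg HP HQ φ x * B =
      ∫ q, (A + φ (blk (HP.m q.1) (HQ.m q.2) x) * B) ∂(iBL_mu HP HQ) := by
    rw [integral_add (integrable_const _) (i1.mul_const B), integral_mul_const,
      iBL_avg HP HQ hR hc x hx]
    simp
  rw [e3]
  refine ConcaveOn.le_map_integral (g := fun t : ℝ => Real.sqrt t)
    Real.strictConcaveOn_sqrt.concaveOn Real.continuous_sqrt.continuousOn isClosed_Ici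
    (Eventually.of_forall fun q => ?_) ((integrable_const _).add (i1.mul_const B)) ?_
  · have := (hp _ (iBL_norm HP HQ hR q x hx)).le
    simp only [mem_Ici]
    positivity
  · have hF : ContinuousOn (fun y => Real.sqrt (A + φ y * B))
        (Metric.sphere (0 : E (Ix P Q)) 1) :=
      (continuousOn_const.add (hc.mul continuousOn_const)).sqrt
    exact iBL_int1 HP HQ hR hF x hx

theorem modif_vol_le (hP : 1 ≤ P) (hQ : 1 ≤ Q) (hgm : IsMetric g) (hm : IsMetric h)
    (hi : IsInv h) (hd : IsDistr h p Z)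
    (hc : ContinuousOn φ (Metric.sphere (0 : E (Ix P Q)) 1)) (hp : ∀ x, ‖x‖ = 1 → 0 < φ x)
    (hz : ∀ x ∈ Z, ‖x‖ = 1 → φ x = 1)
    (hg : ∀ x v w, ‖x‖ = 1 → inner ℝ x v = 0 → inner ℝ x w = 0 →
      g x v w = modif h p φ x v w)
    (hm2 : IsMetric (modif h p (avg HP HQ φ))) (hap : ∀ x, ‖x‖ = 1 → 0 < avg HP HQ φ x) :
    vol (modif h p (avg HP HQ φ)) ≤ vol g := by
  have hR : claimR := itemR
  have c1 := itemBD3 (Ix P Q) g hgm
  have c2 := itemBD3 (Ix P Q) _ hm2
  unfold vol
  refine mul_le_mul_of_nonneg_left ?_ (by norm_num)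
  refine sphere_avg_le HP HQ hP hQ c1 c2 ?_
  intro x hx
  set k := Module.finrank ℝ (LinearMap.range (p x)) with hkdef
  rw [modif_vol hm hd hx (hap x hx), ← hkdef]
  have e3 : ∀ q : HP.Ω × HQ.Ω, volDensity g (blk (HP.m q.1) (HQ.m q.2) x) =
      Real.sqrt (φ (blk (HP.m q.1) (HQ.m q.2) x)) ^ k * volDensity h x := by
    intro q
    have hn := iBL_norm HP HQ hR q x hx
    rw [volDensity_congr (g' := modif h p φ) hn (fun v w hv hw => hg _ v w hn hv hw),
      modif_vol hm hd hn (hp _ hn), rank_inv hd (HP.mem q.1) (HQ.mem q.2) hx, ← hkdef,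
      BD2_holds P Q _ hm hi _ (HP.mem q.1) _ (HQ.mem q.2) x hx]
  simp_rw [e3]
  rw [integral_mul_const]
  refine mul_le_mul_of_nonneg_right ?_ (Real.sqrt_nonneg _)
  rw [iBV_avg HP HQ hR hc x hx]
  by_cases hxz : x ∈ Z
  · have e4 : ∀ q : HP.Ω × HQ.Ω, φ (blk (HP.m q.1) (HQ.m q.2) x) = 1 := fun q =>
      hz _ (hd.zinv _ (HP.mem q.1) _ (HQ.mem q.2) x hxz) (iBV_norm HP HQ hR q x hx)
    simp [e4]
  · exact ConvexOn.map_integral_le (g := fun s : ℝ => Real.sqrt s ^ k)
      (convex_sqrt_pow (hd.rank x hx hxz))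
      (Real.continuous_sqrt.pow k).continuousOn isClosed_Ici
      (Eventually.of_forall fun q => (hp _ (iBV_norm HP HQ hR q x hx)).le)
      (iBV_int1 HP HQ hR hc x hx) (iBV_int1 HP HQ hR (hc.sqrt.pow k) x hx)

/-- The average of the function is `1` on the singular set. -/
theorem avg_one (hd : IsDistr h p Z) (hz : ∀ x ∈ Z, ‖x‖ = 1 → φ x = 1)
    (hc : ContinuousOn φ (Metric.sphere (0 : E (Ix P Q)) 1)) :
    ∀ x ∈ Z, ‖x‖ = 1 → avg HP HQ φ x = 1 := by
  intro x hxz hx
  rw [iBV_avg HP HQ itemR hc x hx]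
  have e4 : ∀ q : HP.Ω × HQ.Ω, φ (blk (HP.m q.1) (HQ.m q.2) x) = 1 := fun q =>
    hz _ (hd.zinv _ (HP.mem q.1) _ (HQ.mem q.2) x hxz) (iBV_norm HP HQ itemR q x hx)
  simp [e4]

end avg

end Pool.Agent.Work.MP_02f065_gt.RPn
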