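import Pool.Agent.Work.MP_02f065_gt.Av.Family

/-!
Final form of the definitions for partial conformal changes (projections as plain functions).
-/

open Set Filter Topology MeasureTheory

namespace Pool.Agent.Work.MP_02f065_gt.RPn.PC

open Pool.Agent.Work.MP_02f065_gt.RPn

variable {P Q : ℕ}

/-- `h` with its restriction to the range of `p x` multiplied by `φ x`. -/
def modif (h : Field (Ix P Q)) (p : E (Ix P Q) → E (Ix P Q) → E (Ix P Q))
    (φ : E (Ix P Q) → ℝ) : Field (Ix P Q) :=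
  fun x v w => h x v w + (φ x - 1) * h x (p x v) (p x w)

/-- For `x` on the unit sphere, `p x` is linear, kills `x` and is on the tangent space at `x` the
`h`-orthogonal projection onto a subspace of the tangent space. -/
structure IsProj (h : Field (Ix P Q)) (p : E (Ix P Q) → E (Ix P Q) → E (Ix P Q)) : Prop where
  linear : ∀ x, IsLinearMap ℝ (p x)
  proj : ∀ x v, ‖x‖ = 1 → p x (p x v) = p x v
  tangent : ∀ x v, ‖x‖ = 1 → inner ℝ x (p x v) = 0
  normal : ∀ x, ‖x‖ = 1 → p x x = 0
  symm : ∀ x v w, ‖x‖ = 1 → inner ℝ x v = 0 → inner ℝ x w = 0 → h x (p x v) w = h x v (p x w)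

/-- `p x` is the `h`-orthogonal projection of the tangent space at `x` onto a distribution which
is invariant (also under `x ↦ -x`), continuous and of rank at least two outside the closed
invariant set `Z`. -/
structure IsDistr (h : Field (Ix P Q)) (p : E (Ix P Q) → E (Ix P Q) → E (Ix P Q))
    (Z : Set (E (Ix P Q))) : Prop where
  isProj : IsProj h p
  closed : IsClosed Z
  zinv : ∀ A ∈ SO P, ∀ B ∈ SO Q, ∀ x ∈ Z, blk A B x ∈ Z
  cont : ∀ v, ContinuousOn (fun x => p x v) (Metric.sphere (0 : E (Ix P Q)) 1 \ Z)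
  rank : ∀ x, ‖x‖ = 1 → x ∉ Z → 2 ≤ Module.finrank ℝ (Submodule.span ℝ (Set.range (p x)))
  even : ∀ x v, ‖x‖ = 1 → p (-x) v = p x v
  inv : ∀ A ∈ SO P, ∀ B ∈ SO Q, ∀ x v, ‖x‖ = 1 → p (blk A B x) (blk A B v) = blk A B (p x v)

/-- `g` is obtained from an invariant metric by multiplication with a positive function on an
invariant distribution of rank at least two. -/
def PartConformal (g : Field (Ix P Q)) : Prop :=
  ∃ (h : Field (Ix P Q)) (p : E (Ix P Q) → E (Ix P Q) → E (Ix P Q)) (Z : Set (E (Ix P Q)))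
    (φ : E (Ix P Q) → ℝ), IsMetric h ∧ IsInv h ∧ IsDistr h p Z ∧
    ContinuousOn φ (Metric.sphere (0 : E (Ix P Q)) 1) ∧ (∀ x, ‖x‖ = 1 → 0 < φ x) ∧
    (∀ x, ‖x‖ = 1 → φ (-x) = φ x) ∧ (∀ x ∈ Z, ‖x‖ = 1 → φ x = 1) ∧
    ∀ x v w, ‖x‖ = 1 → inner ℝ x v = 0 → inner ℝ x w = 0 → g x v w = modif h p φ x v w

theorem toOld {g : Field (Ix P Q)} (hg : PartConformal g) : RPn.PartConformal g := by
  obtain ⟨h, p, Z, φ, hm, hi, hd, hc, hp, he, hz, hgm⟩ := hg
  refine ⟨h, fun x => (hd.isProj.linear x).mk' (p x), Z, φ, hm, hi, ?_, hc, hp, he, hz, ?_⟩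
  · refine ⟨hd.closed, hd.zinv, hd.cont, hd.isProj.proj, hd.isProj.tangent, hd.isProj.normal,
      hd.isProj.symm, ?_, hd.even, hd.inv⟩
    intro x hx hxz
    have h1 := hd.rank x hx hxz
    have h2 : Submodule.span ℝ (Set.range (p x)) =
        LinearMap.range ((hd.isProj.linear x).mk' (p x)) := by
      have h3 : (Set.range (p x)) =
          (LinearMap.range ((hd.isProj.linear x).mk' (p x)) : Set (E (Ix P Q))) := by
        ext y
        simp
      rw [h3, Submodule.span_eq]
    rw [h2] at h1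
    exact h1
  · intro x v w hx hv hw
    rw [hgm x v w hx hv hw]
    rfl

theorem ofOld {g : Field (Ix P Q)} (hg : RPn.PartConformal g) : PartConformal g := by
  obtain ⟨h, p, Z, φ, hm, hi, hd, hc, hp, he, hz, hgm⟩ := hg
  refine ⟨h, fun x v => p x v, Z, φ, hm, hi, ?_, hc, hp, he, hz, hgm⟩
  refine ⟨⟨fun x => (p x).isLinear, hd.proj, hd.tangent, hd.normal, hd.symm⟩, hd.closed, hd.zinv,
    hd.cont, ?_, hd.even, hd.inv⟩
  intro x hx hxz
  have h1 := hd.rank x hx hxz
  have h3 : (Set.range fun v => p x v) = (LinearMap.range (p x) : Set (E (Ix P Q))) := by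
    ext y
    simp
  rw [h3, Submodule.span_eq]
  exact h1

/-- The metrics conformal to invariant ones are the case of the whole tangent space. -/
theorem conf_part (hP : 1 ≤ P) (hQ : 2 ≤ Q) {g : Field (Ix P Q)} (hg : IsMetric g)
    (hc : ConformallyInv g) : PartConformal g :=
  ofOld (RPn.conf_part hP hQ hg hc)

end Pool.Agent.Work.MP_02f065_gt.RPn.PC
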